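import Pool.Agent.W97.TW.Hecke

/-!
The `L`-functions of the twists of a newform of level one or prime level by real characters:
existence, uniqueness, root numbers.
-/

set_option autoImplicit false

open UpperHalfPlane MatrixGroups CongruenceSubgroup Filter Topology Pool.Agent.W97.TW

namespace Pool.Agent.U81.SN

variable {N : ℕ} {k : ℤ} (f : CuspForm (Gamma0 N : Subgroup (GL (Fin 2) ℝ)) k)

lemma exists_ne (h : (qExpansion 1 f).coeff 1 = 1) : ∃ z : ℍ, f z ≠ 0 := by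
  by_contra hc
  push Not at hc
  have h0 : (⇑f : ℍ → ℂ) = 0 := funext hc
  rw [h0, qExpansion_zero] at h
  simp at h

lemma even_weight (h : (qExpansion 1 f).coeff 1 = 1) : (-1 : ℂ) ^ k = 1 := by
  obtain ⟨z, hz⟩ := exists_ne f h
  have h1 := f_gamma f (a := -1) (b := 0) (c := 0) (d := -1) (by norm_num) (dvd_zero _) z.im_pos
  have h3 : (((0 : ℤ) : ℂ) * (z : ℂ) + ((-1 : ℤ) : ℂ)) = -1 := by push_cast; ring
  rw [h3] at h1
  rw [show (((-1 : ℤ) : ℂ) * (z : ℂ) + ((0 : ℤ) : ℂ)) / (-1) = z by push_cast; ring] at h1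
  rw [ofComplex_apply] at h1
  apply mul_right_cancel₀ hz
  rw [← h1, one_mul]

lemma im_fricke [NeZero N] {z : ℂ} (hz : 0 < z.im) : 0 < (-1 / ((N : ℂ) * z)).im := by
  rw [neg_div, Complex.neg_im, one_div, Complex.inv_im, neg_div, neg_neg]
  have h1 : 0 < ((N : ℂ) * z).im := by
    rw [Complex.mul_im]
    simp only [Complex.natCast_re, Complex.natCast_im, zero_mul, add_zero]
    have : (0 : ℝ) < N := by exact_mod_cast NeZero.pos N
    positivity
  exact div_pos h1 (Complex.normSq_pos.2 (ne_zero_of_im h1))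

lemma fricke_sq [NeZero N] (h : (qExpansion 1 f).coeff 1 = 1) {w : ℂ}
    (hw : ∀ z : ℍ, f (ofComplex (-1 / ((N : ℂ) * z))) = w * (z : ℂ) ^ k * f z) :
    w ^ 2 = (N : ℂ) ^ k := by
  obtain ⟨z, hz⟩ := exists_ne f h
  have hzC : (z : ℂ) ≠ 0 := ne_zero_of_im z.im_pos
  have hNC : (N : ℂ) ≠ 0 := by exact_mod_cast NeZero.ne N
  have him := im_fricke (N := N) z.im_pos
  have h1 := hw (⟨-1 / ((N : ℂ) * z), him⟩ : ℍ)
  have h2 : ((⟨-1 / ((N : ℂ) * z), him⟩ : ℍ) : ℂ) = -1 / ((N : ℂ) * z) := rfl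
  have h3 : f (⟨-1 / ((N : ℂ) * z), him⟩ : ℍ) = f (ofComplex (-1 / ((N : ℂ) * z))) := by
    rw [ofComplex_apply_of_im_pos him]
  rw [h2, h3, hw z] at h1
  have h4 : (-1 / ((N : ℂ) * (-1 / ((N : ℂ) * z)))) = z := by field_simp
  rw [h4, ofComplex_apply] at h1
  have h5 : (-1 / ((N : ℂ) * z)) ^ k = ((N : ℂ) ^ k)⁻¹ * ((z : ℂ) ^ k)⁻¹ := by
    rw [div_zpow, even_weight f h, mul_zpow, one_div, mul_inv]
  rw [h5] at h1
  have h6 : (z : ℂ) ^ k ≠ 0 := zpow_ne_zero _ hzC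
  have h7 : (N : ℂ) ^ k ≠ 0 := zpow_ne_zero _ hNC
  have h8 : f z * (N : ℂ) ^ k = w ^ 2 * f z := by
    generalize f z = F at h1 ⊢
    generalize (N : ℂ) ^ k = Y at h1 h7 ⊢
    generalize (z : ℂ) ^ k = X at h1 h6 ⊢
    field_simp at h1
    linear_combination h1
  exact (mul_right_cancel₀ hz (by rw [← h8, mul_comm]))

/-- the root number for conductors divisible by the level -/
noncomputable def eps2 (k : ℤ) {m : ℕ} (ψ : DirichletCharacter ℂ m) : ℂ :=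
  ψ (-1) * Complex.I ^ k

/-- the root number for conductors prime to the level -/
noncomputable def eps1 (N : ℕ) (k : ℤ) (w : ℂ) {m : ℕ} (ψ : DirichletCharacter ℂ m) : ℂ :=
  ψ (-((N : ZMod m))) * (w * (Complex.I / ((Real.sqrt N : ℝ) : ℂ)) ^ k)

lemma fe_two {m : ℕ} [NeZero m] (hNm : N ∣ m) (ψ : DirichletCharacter ℂ m)
    (hsq : ψ ^ 2 = 1) (t : ℝ) (ht : 0 < t) :
    TS f ψ (Complex.I * ((1 / t / (m : ℝ) : ℝ) : ℂ)) =
      eps2 k ψ * ((t ^ (k : ℝ) : ℝ) : ℂ) * TS f ψ (Complex.I * ((t / (m : ℝ) : ℝ) : ℂ)) := by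
  have hm : (0 : ℝ) < m := by exact_mod_cast NeZero.pos m
  have hmC : (m : ℂ) ≠ 0 := by exact_mod_cast hm.ne'
  have htC : (t : ℂ) ≠ 0 := by exact_mod_cast ht.ne'
  have him : 0 < (Complex.I * ((t / (m : ℝ) : ℝ) : ℂ)).im := by
    simp only [Complex.I_mul_im, Complex.ofReal_re]; positivity
  have h1 := TS_two f hNm ψ hsq him
  have h2 : (-1 / ((m : ℂ) ^ 2 * (Complex.I * ((t / (m : ℝ) : ℝ) : ℂ)))) =
      Complex.I * ((1 / t / (m : ℝ) : ℝ) : ℂ) := by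
    push_cast
    have := Complex.I_sq
    field_simp
    linear_combination -this
  have h3 : (m : ℂ) * (Complex.I * ((t / (m : ℝ) : ℝ) : ℂ)) = Complex.I * t := by
    push_cast
    field_simp
  rw [h2, h3] at h1
  rw [h1, mul_zpow, eps2, Real.rpow_intCast, Complex.ofReal_zpow]
  ring

lemma fe_one [NeZero N] {w : ℂ}
    (hw : ∀ z : ℍ, f (ofComplex (-1 / ((N : ℂ) * z))) = w * (z : ℂ) ^ k * f z)
    {m : ℕ} [NeZero m] (hNm : Nat.Coprime N m) (ψ : DirichletCharacter ℂ m)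
    (hsq : ψ ^ 2 = 1) (t : ℝ) (ht : 0 < t) :
    TS f ψ (Complex.I * ((1 / t / (Real.sqrt N * m) : ℝ) : ℂ)) =
      eps1 N k w ψ * ((t ^ (k : ℝ) : ℝ) : ℂ) *
        TS f ψ (Complex.I * ((t / (Real.sqrt N * m) : ℝ) : ℂ)) := by
  have hm : (0 : ℝ) < m := by exact_mod_cast NeZero.pos m
  have hN : (0 : ℝ) < N := by exact_mod_cast NeZero.pos N
  have hs : 0 < Real.sqrt N := Real.sqrt_pos.2 hN
  have hsC : ((Real.sqrt N : ℝ) : ℂ) ≠ 0 := by exact_mod_cast hs.ne'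
  have hs2 : ((Real.sqrt N : ℝ) : ℂ) ^ 2 = N := by
    rw [← Complex.ofReal_pow, Real.sq_sqrt hN.le]; simp
  have hmC : (m : ℂ) ≠ 0 := by exact_mod_cast hm.ne'
  have htC : (t : ℂ) ≠ 0 := by exact_mod_cast ht.ne'
  have him : 0 < (Complex.I * ((t / (Real.sqrt N * m) : ℝ) : ℂ)).im := by
    simp only [Complex.I_mul_im, Complex.ofReal_re]; positivity
  have h1 := TS_one f hw (NeZero.pos N) hNm ψ hsq him
  have h2 : (-1 / ((N : ℂ) * (m : ℂ) ^ 2 * (Complex.I * ((t / (Real.sqrt N * m) : ℝ) : ℂ)))) =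
      Complex.I * ((1 / t / (Real.sqrt N * m) : ℝ) : ℂ) := by
    rw [← hs2]
    push_cast
    have := Complex.I_sq
    field_simp
    linear_combination -this
  have h3 : (m : ℂ) * (Complex.I * ((t / (Real.sqrt N * m) : ℝ) : ℂ)) =
      Complex.I / ((Real.sqrt N : ℝ) : ℂ) * t := by
    push_cast
    field_simp
  rw [h2, h3] at h1
  rw [h1, mul_zpow, eps1, Real.rpow_intCast, Complex.ofReal_zpow]
  ring

end Pool.Agent.U81.SN
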