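import Pool.Agent.U81.SN.LF

/-!
Existence and uniqueness of the twisted `L`-functions; vanishing at the centre.
-/

set_option autoImplicit false

open UpperHalfPlane MatrixGroups CongruenceSubgroup Filter Topology Pool.Agent.W97.TW

namespace Pool.Agent.U81.SN

lemma char_sq {m : ℕ} (ψ : DirichletCharacter ℂ m) (hsq : ψ ^ 2 = 1) {a : ZMod m}
    (ha : IsUnit a) : ψ a ^ 2 = 1 := by
  obtain ⟨u, rfl⟩ := ha
  have := congrArg (fun ψ : DirichletCharacter ℂ m => ψ (u : ZMod m)) hsq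
  simpa [MulChar.pow_apply_coe] using this

variable {N : ℕ} {k : ℤ} (f : CuspForm (Gamma0 N : Subgroup (GL (Fin 2) ℝ)) k)

lemma I_zpow_sq (h : (-1 : ℂ) ^ k = 1) : (Complex.I ^ k) ^ 2 = 1 := by
  rw [← zpow_natCast, zpow_comm]
  norm_num
  exact h

lemma eps2_sq (h : (-1 : ℂ) ^ k = 1) {m : ℕ} (ψ : DirichletCharacter ℂ m) (hsq : ψ ^ 2 = 1) :
    eps2 k ψ ^ 2 = 1 := by
  rw [eps2, mul_pow, I_zpow_sq h, char_sq ψ hsq isUnit_one.neg, one_mul]

lemma eps1_sq [NeZero N] (h : (-1 : ℂ) ^ k = 1) {w : ℂ} (hw : w ^ 2 = (N : ℂ) ^ k) {m : ℕ}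
    (hNm : Nat.Coprime N m) (ψ : DirichletCharacter ℂ m) (hsq : ψ ^ 2 = 1) :
    eps1 N k w ψ ^ 2 = 1 := by
  have hN : (0 : ℝ) < N := by exact_mod_cast NeZero.pos N
  have hNC : (N : ℂ) ≠ 0 := by exact_mod_cast NeZero.ne N
  have hs2 : ((Real.sqrt N : ℝ) : ℂ) ^ 2 = N := by
    rw [← Complex.ofReal_pow, Real.sq_sqrt hN.le]; simp
  have h1 : ψ (-((N : ZMod m))) ^ 2 = 1 :=
    char_sq ψ hsq ((ZMod.isUnit_iff_coprime _ _).2 hNm).neg
  rw [eps1, mul_pow, mul_pow, h1, hw, ← zpow_natCast ((Complex.I / _) ^ k), zpow_comm]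
  have h2 : ((Complex.I / ((Real.sqrt N : ℝ) : ℂ)) ^ ((2 : ℕ) : ℤ)) = -1 / (N : ℂ) := by
    rw [zpow_natCast, div_pow, hs2, Complex.I_sq]
  rw [h2, div_zpow, h]
  have h7 : (N : ℂ) ^ k ≠ 0 := zpow_ne_zero _ hNC
  field_simp

lemma lam_rec [NeZero N] (hf : IsNewform N k f) (p : Nat.Primes) (m : ℕ) (hm : 0 < m) :
    lam N k f (p * m) = lam N k f p * lam N k f m -
      (if (p : ℕ) ∣ N then 0 else 1) * (if (p : ℕ) ∣ m then lam N k f (m / p) else 0) := by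
  obtain ⟨a, ha⟩ := hf.hecke p
  have hp : 0 < (p : ℕ) := p.2.pos
  have hpC : ((p : ℕ) : ℂ) ≠ 0 := by exact_mod_cast hp.ne'
  have hA1 : A f 1 = 1 := hf.coeff_one
  have h1 := hecke_rec f hp ha 1
  have hnd : ¬ (p : ℕ) ∣ 1 := fun h => p.2.one_lt.ne' (Nat.dvd_one.1 h)
  rw [B, if_neg hnd, mul_zero, zero_add, mul_one, hA1, mul_one] at h1
  have h2 := hecke_rec f hp ha m
  rw [B, ← h1] at h2
  have e : ∀ n : ℕ, lam N k f n = A f n * (n : ℂ) ^ (-(((k : ℂ) - 1) / 2)) := fun n => rfl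
  have h3 : A f (p * m) = A f p * A f m - (if (p : ℕ) ∣ N then 0 else ((p : ℕ) : ℂ) ^ (k - 1)) *
      (if (p : ℕ) ∣ m then A f (m / p) else 0) := by
    linear_combination h2
  rw [e, e, e, h3, Nat.cast_mul, Complex.natCast_mul_natCast_cpow]
  set c : ℂ := -(((k : ℂ) - 1) / 2) with hc
  by_cases hd : (p : ℕ) ∣ m
  · rw [if_pos hd, if_pos hd, e]
    obtain ⟨n, rfl⟩ := hd
    rw [Nat.mul_div_cancel_left _ hp, Nat.cast_mul, Complex.natCast_mul_natCast_cpow]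
    by_cases hN : (p : ℕ) ∣ N
    · rw [if_pos hN, if_pos hN]; ring
    · rw [if_neg hN, if_neg hN]
      have h4 : ((p : ℕ) : ℂ) ^ (k - 1) * (((p : ℕ) : ℂ) ^ c * ((p : ℕ) : ℂ) ^ c) = 1 := by
        rw [← Complex.cpow_add _ _ hpC, ← Complex.cpow_intCast, ← Complex.cpow_add _ _ hpC]
        rw [show (((k - 1 : ℤ)) : ℂ) + (c + c) = 0 by rw [hc]; push_cast; ring, Complex.cpow_zero]
      generalize ((p : ℕ) : ℂ) ^ c = P at h4 ⊢
      generalize ((p : ℕ) : ℂ) ^ (k - 1) = Q at h4 ⊢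
      linear_combination (-(A f n) * (n : ℂ) ^ c) * h4
  · rw [if_neg hd, if_neg hd]; ring

lemma lam_zero [NeZero N] : lam N k f 0 = 0 := by
  have : lam N k f 0 = A f 0 * ((0 : ℕ) : ℂ) ^ (-(((k : ℂ) - 1) / 2)) := rfl
  rw [this, A_zero, zero_mul]

lemma lam_one (hf : IsNewform N k f) : lam N k f 1 = 1 := by
  unfold lam
  rw [hf.coeff_one]; simp

lemma norm_natCast_cpow {n : ℕ} (hn : 0 < n) (s : ℂ) : ‖(n : ℂ) ^ s‖ = (n : ℝ) ^ s.re := by
  rw [← Complex.ofReal_natCast, Complex.norm_cpow_eq_rpow_re_of_pos (by exact_mod_cast hn)]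

lemma lam_bound [NeZero N] : ∃ C : ℝ, ∀ n : ℕ, ‖lam N k f n‖ ≤ C * Real.sqrt n := by
  obtain ⟨C, hC⟩ := A_bound f
  refine ⟨C, fun n => ?_⟩
  rcases Nat.eq_zero_or_pos n with rfl | hn
  · rw [lam_zero]; simp
  · have hn0 : (0 : ℝ) < n := by exact_mod_cast hn
    have e : lam N k f n = A f n * (n : ℂ) ^ (-(((k : ℂ) - 1) / 2)) := rfl
    rw [e, norm_mul, norm_natCast_cpow hn]
    have hre : (-(((k : ℂ) - 1) / 2)).re = -(((k : ℝ) - 1) / 2) := by
      have : (-(((k : ℂ) - 1) / 2)) = ((-(((k : ℝ) - 1) / 2) : ℝ) : ℂ) := by push_cast; ring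
      rw [this, Complex.ofReal_re]
    rw [hre]
    calc ‖A f n‖ * (n : ℝ) ^ (-(((k : ℝ) - 1) / 2))
        ≤ (C * (n : ℝ) ^ ((k : ℝ) / 2)) * (n : ℝ) ^ (-(((k : ℝ) - 1) / 2)) := by
          gcongr
          exact hC n hn
      _ = C * Real.sqrt n := by
          rw [mul_assoc, ← Real.rpow_add hn0, Real.sqrt_eq_rpow]
          ring_nf

theorem series [NeZero N] (hf : IsNewform N k f) {m : ℕ} (ψ : DirichletCharacter ℂ m) (s : ℂ)
    (hs : 3 / 2 < s.re) :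
    HasProd (fun p : Nat.Primes =>
      (1 - lam N k f p * ψ p * (p : ℂ) ^ (-s) +
        (if (p : ℕ) ∣ N then 0 else 1) * (ψ p) ^ 2 * (p : ℂ) ^ (-2 * s))⁻¹)
      (∑' n : ℕ, lam N k f n * ψ n * (n : ℂ) ^ (-s)) := by
  obtain ⟨C, hC⟩ := lam_bound f
  exact (euler_product (fun p => lam N k f p) (fun p => if (p : ℕ) ∣ N then 0 else 1) (lam N k f)
    (lam_zero f) (lam_one f hf) (fun p m hm => lam_rec f hf p m hm) C hC ψ s hs).2

theorem exists_L [NeZero N] (hf : IsNewform N k f) (hk : 0 < k) {m : ℕ} [NeZero m]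
    (ψ : DirichletCharacter ℂ m) (hψ : ψ.IsPrimitive) (hsq : ψ ^ 2 = 1) (q : ℝ) (hq : 0 < q)
    (ε : ℂ) (hε : ε ≠ 0)
    (hfe : ∀ t : ℝ, 0 < t → TS f ψ (Complex.I * ((1 / t / q : ℝ) : ℂ)) =
      ε * ((t ^ (k : ℝ) : ℝ) : ℂ) * TS f ψ (Complex.I * ((t / q : ℝ) : ℂ))) :
    ∃ L : ℂ → ℂ, IsTwistedLFunction N k f ψ L ∧ (ε ≠ 1 → L (1 / 2) = 0) := by
  obtain ⟨C, hC⟩ := A_bound f
  have hkR : (0 : ℝ) < k := by exact_mod_cast hk
  have hτ := tau_ne_zero ψ hψ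
  obtain ⟨H, hH1, hH2, hH3⟩ := core (c := fun n : ℕ => tau ψ * (A f n * ψ n)) (C := ‖tau ψ‖ * C)
    (β := (k : ℝ) / 2) (q := q) (Φ := fun t : ℝ => TS f ψ (Complex.I * ((t / q : ℝ) : ℂ)))
    (by simp [A_zero]) (fun n hn => by
      rw [norm_mul, norm_mul, mul_assoc]
      refine mul_le_mul_of_nonneg_left ?_ (norm_nonneg _)
      have h2 : ‖ψ n‖ ≤ 1 := DirichletCharacter.norm_le_one ψ _
      have h3 := hC n hn
      calc ‖A f n‖ * ‖ψ n‖ ≤ ‖A f n‖ * 1 := by gcongr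
        _ ≤ _ := by rw [mul_one]; exact h3) hq
    (fun t ht => by
      have h1 := hasSum_TS f ψ hψ hsq (y := t / q) (div_pos ht hq)
      refine h1.congr_fun fun n => ?_
      have e1 : -(2 * Real.pi * n / q) * t = -(2 * Real.pi * n) * (t / q) := by field_simp
      rw [e1]
      ring)
    (continuousOn_TS f ψ q hq) (k : ℝ) hkR ε hε hfe
  set κ : ℂ := ((k : ℂ) - 1) / 2 with hκ
  refine ⟨fun s => H (s + κ) * ((q / (2 * Real.pi) : ℝ) : ℂ) ^ (-(s + κ)) *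
    (Complex.Gamma (s + κ))⁻¹ * (tau ψ)⁻¹, ⟨?_, ?_⟩, ?_⟩
  · have hQ : ((q / (2 * Real.pi) : ℝ) : ℂ) ≠ 0 := by
      have : (q / (2 * Real.pi) : ℝ) ≠ 0 := by positivity
      exact_mod_cast this
    have hd1 : Differentiable ℂ (fun s : ℂ => H (s + κ)) :=
      hH1.comp (differentiable_id.add_const κ)
    have hd2 : Differentiable ℂ (fun s : ℂ => ((q / (2 * Real.pi) : ℝ) : ℂ) ^ (-(s + κ))) :=
      fun s => DifferentiableAt.const_cpow ((differentiableAt_id.add_const κ).neg) (Or.inl hQ)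
    have hd3 : Differentiable ℂ (fun s : ℂ => (Complex.Gamma (s + κ))⁻¹) :=
      Complex.differentiable_one_div_Gamma.comp (differentiable_id.add_const κ)
    exact ((hd1.mul hd2).mul hd3).mul_const _
  · intro s hs
    have hQ : ((q / (2 * Real.pi) : ℝ) : ℂ) ≠ 0 := by
      have : (q / (2 * Real.pi) : ℝ) ≠ 0 := by positivity
      exact_mod_cast this
    have hre : (s + κ).re = s.re + ((k : ℝ) - 1) / 2 := by
      rw [Complex.add_re]
      have : κ = ((((k : ℝ) - 1) / 2 : ℝ) : ℂ) := by rw [hκ]; push_cast; ring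
      rw [this, Complex.ofReal_re]
    have h1 := hH3 (s + κ) (by rw [hre]; linarith) (by rw [hre]; linarith)
    have hG : Complex.Gamma (s + κ) ≠ 0 :=
      Complex.Gamma_ne_zero_of_re_pos (by rw [hre]; linarith)
    have hQs : ((q / (2 * Real.pi) : ℝ) : ℂ) ^ (s + κ) ≠ 0 := by
      rw [Complex.cpow_def_of_ne_zero hQ]; exact Complex.exp_ne_zero _
    have h2 : ∑' n : ℕ, tau ψ * (A f n * ψ n) * (n : ℂ) ^ (-(s + κ)) =
        tau ψ * ∑' n : ℕ, lam N k f n * ψ n * (n : ℂ) ^ (-s) := by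
      rw [← tsum_mul_left]
      refine tsum_congr fun n => ?_
      have e : lam N k f n = A f n * (n : ℂ) ^ (-(((k : ℂ) - 1) / 2)) := rfl
      rw [e, ← hκ]
      rcases Nat.eq_zero_or_pos n with rfl | hn
      · rw [A_zero]; simp
      · have hnC : (n : ℂ) ≠ 0 := by exact_mod_cast hn.ne'
        rw [neg_add, Complex.cpow_add _ _ hnC]
        ring
    have h3 : H (s + κ) * ((q / (2 * Real.pi) : ℝ) : ℂ) ^ (-(s + κ)) *
        (Complex.Gamma (s + κ))⁻¹ * (tau ψ)⁻¹ =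
        ∑' n : ℕ, lam N k f n * ψ n * (n : ℂ) ^ (-s) := by
      rw [h1, h2, Complex.cpow_neg]
      generalize ((q / (2 * Real.pi) : ℝ) : ℂ) ^ (s + κ) = X at hQs ⊢
      field_simp
    simp only [h3]
    exact series f hf ψ s hs
  · intro hne
    have h1 : (1 / 2 : ℂ) + κ = (k : ℂ) / 2 := by rw [hκ]; ring
    have h2 := hH2 ((k : ℂ) / 2)
    have h3 : (((k : ℝ) : ℂ)) - (k : ℂ) / 2 = (k : ℂ) / 2 := by push_cast; ring
    rw [h3] at h2
    have h4 : H ((k : ℂ) / 2) = 0 := by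
      have : (1 - ε) * H ((k : ℂ) / 2) = 0 := by linear_combination h2
      rcases mul_eq_zero.1 this with h | h
      · exact absurd (sub_eq_zero.1 h).symm hne
      · exact h
    simp only [h1, h4, zero_mul]

theorem unique_L {m : ℕ} (ψ : DirichletCharacter ℂ m) {L L' : ℂ → ℂ}
    (h : IsTwistedLFunction N k f ψ L) (h' : IsTwistedLFunction N k f ψ L') : L = L' := by
  have hA : AnalyticOnNhd ℂ L Set.univ := h.1.differentiableOn.analyticOnNhd isOpen_univ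
  have hA' : AnalyticOnNhd ℂ L' Set.univ := h'.1.differentiableOn.analyticOnNhd isOpen_univ
  refine hA.eq_of_eventuallyEq (z₀ := 2) hA' ?_
  have : {s : ℂ | 3 / 2 < s.re} ∈ 𝓝 (2 : ℂ) :=
    (isOpen_lt continuous_const Complex.continuous_re).mem_nhds (by norm_num)
  filter_upwards [this] with s hs
  exact (h.2 s hs).unique (h'.2 s hs)

end Pool.Agent.U81.SN
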