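import Pool.Agent.U81.SN.Main

/-!
Odd quadratic characters with prescribed value at `N`.
-/

set_option autoImplicit false

open Pool.Agent.W97.TW NumberTheorySymbols

namespace Pool.Agent.U81.SN

/-- the Legendre symbol as a complex Dirichlet character -/
noncomputable def leg (ℓ : ℕ) [Fact ℓ.Prime] : DirichletCharacter ℂ ℓ :=
  (quadraticChar (ZMod ℓ)).ringHomComp (Int.castRingHom ℂ)

lemma leg_apply (ℓ : ℕ) [Fact ℓ.Prime] (a : ZMod ℓ) : leg ℓ a = (quadraticChar (ZMod ℓ) a : ℂ) :=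
  rfl

lemma leg_sq (ℓ : ℕ) [Fact ℓ.Prime] : leg ℓ ^ 2 = 1 := by
  ext a
  rw [MulChar.pow_apply_coe, leg_apply, MulChar.one_apply_coe]
  have := quadraticChar_sq_one (F := ZMod ℓ) (a := (a : ZMod ℓ)) a.ne_zero
  exact_mod_cast this

lemma leg_ne_one (ℓ : ℕ) [hℓ : Fact ℓ.Prime] (h2 : ℓ ≠ 2) : leg ℓ ≠ 1 := by
  intro h
  obtain ⟨a, ha⟩ := quadraticChar_exists_neg_one (F := ZMod ℓ) (by
    rw [ZMod.ringChar_zmod_n]; exact h2)
  have hu : IsUnit a := by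
    by_contra hc
    have : quadraticChar (ZMod ℓ) a = 0 := by
      have := MulChar.map_nonunit (quadraticChar (ZMod ℓ)) hc
      exact this
    rw [this] at ha
    norm_num at ha
  obtain ⟨u, rfl⟩ := hu
  have h1 := leg_apply ℓ (u : ZMod ℓ)
  rw [h, MulChar.one_apply_coe, ha] at h1
  norm_num at h1

lemma leg_primitive (ℓ : ℕ) [hℓ : Fact ℓ.Prime] (h2 : ℓ ≠ 2) : (leg ℓ).IsPrimitive := by
  have h1 : (leg ℓ).conductor ∣ ℓ := DirichletCharacter.conductor_dvd_level _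
  rcases (Nat.dvd_prime hℓ.out).1 h1 with h | h
  · exact absurd (DirichletCharacter.eq_one_iff_conductor_eq_one.2 h) (leg_ne_one ℓ h2)
  · exact h

/-- the Legendre symbol as a quadratic character -/
noncomputable def legQ (ℓ : ℕ) [hℓ : Fact ℓ.Prime] (h2 : ℓ ≠ 2) : QuadraticCharacter where
  modulus := ℓ
  modulus_pos := hℓ.out.pos
  χ := leg ℓ
  primitive := leg_primitive ℓ h2
  sq_eq_one := leg_sq ℓ
  ne_one := leg_ne_one ℓ h2

lemma leg_neg_one (ℓ : ℕ) [hℓ : Fact ℓ.Prime] (h3 : ℓ % 4 = 3) : leg ℓ (-1) = -1 := by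
  have h2 : ℓ ≠ 2 := by omega
  rw [leg_apply, quadraticChar_neg_one (by rw [ZMod.ringChar_zmod_n]; exact h2), ZMod.card]
  have : ZMod.χ₄ ((ℓ : ℕ) : ZMod 4) = -1 := ZMod.χ₄_nat_three_mod_four h3
  rw [this]
  norm_num

lemma jac {N b : ℕ} (hN : 0 < N) (hb : b = 4 * N - 1) : J(N | b) = 1 := by
  have hodd : Odd b := ⟨2 * N - 1, by omega⟩
  have h1 : J(((4 * N : ℕ) : ℤ) | b) = 1 := by
    rw [jacobiSym.mod_left]
    have : (((4 * N : ℕ) : ℤ) % (b : ℤ)) = 1 % (b : ℤ) := by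
      have e : ((4 * N : ℕ) : ℤ) = 1 + (b : ℤ) * 1 := by
        rw [hb]; push_cast [show 1 ≤ 4 * N by omega]; ring
      rw [e, Int.add_mul_emod_self_left]
    rw [this, ← jacobiSym.mod_left, jacobiSym.one_left]
  have h2 : (((4 * N : ℕ) : ℤ)) = 2 ^ 2 * (N : ℤ) := by push_cast; ring
  rw [h2, jacobiSym.mul_left, jacobiSym.pow_left] at h1
  have h3 : J(2 | b) ^ 2 = 1 := by
    apply jacobiSym.sq_one
    have : Nat.Coprime 2 b := (Nat.coprime_two_left).2 hodd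
    exact_mod_cast this
  rw [h3, one_mul] at h1
  exact h1

lemma leg_N {N : ℕ} (hN : 0 < N) (ℓ : ℕ) [hℓ : Fact ℓ.Prime] (h : ℓ % (4 * N) = 4 * N - 1) :
    leg ℓ N = 1 := by
  have hodd : Odd ℓ := by
    refine hℓ.out.odd_of_ne_two ?_
    rintro rfl
    have h1 : 2 % (4 * N) = 2 := Nat.mod_eq_of_lt (by omega)
    omega
  have h1 : J(N | ℓ) = 1 := by
    rw [jacobiSym.mod_right' N hodd, h]
    exact jac hN rfl
  rw [leg_apply]
  have h2 : quadraticChar (ZMod ℓ) ((N : ℕ) : ZMod ℓ) = legendreSym ℓ N := by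
    simp [legendreSym]
  rw [h2, jacobiSym.legendreSym.to_jacobiSym, h1]
  simp

/-- infinitely many odd quadratic characters take the value `1` at `N` -/
theorem exists_leg {N : ℕ} (hN : 0 < N) (B : ℕ) : ∃ χ : QuadraticCharacter, B < χ.modulus ∧
    χ.modulus.Prime ∧ χ.χ.Odd ∧ χ.χ N = 1 := by
  have : NeZero (4 * N) := ⟨by omega⟩
  obtain ⟨ℓ, hB, hp, he⟩ := Nat.forall_exists_prime_gt_and_eq_mod (q := 4 * N) (a := -1)
    isUnit_one.neg (max B 2)
  have : Fact ℓ.Prime := ⟨hp⟩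
  have h2 : ℓ ≠ 2 := by
    have := le_max_right B 2
    omega
  have hm : ℓ % (4 * N) = 4 * N - 1 := by
    have h1 : (((ℓ + 1 : ℕ)) : ZMod (4 * N)) = 0 := by push_cast; rw [he]; ring
    rw [ZMod.natCast_eq_zero_iff] at h1
    obtain ⟨c, hc⟩ := h1
    have hc0 : 0 < c := by
      rcases Nat.eq_zero_or_pos c with rfl | h
      · omega
      · exact h
    obtain ⟨d, rfl⟩ : ∃ d, c = d + 1 := ⟨c - 1, by omega⟩
    have h3 : ℓ = (4 * N - 1) + (4 * N) * d := by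
      have : 4 * N * (d + 1) = 4 * N * d + 4 * N := by ring
      omega
    rw [h3, Nat.add_mul_mod_self_left, Nat.mod_eq_of_lt (by omega)]
  refine ⟨legQ ℓ h2, (le_max_left B 2).trans_lt hB, hp, leg_neg_one ℓ ?_, leg_N hN ℓ hm⟩
  have h4 : ℓ % 4 = (ℓ % (4 * N)) % 4 := (Nat.mod_mul_right_mod _ _ _).symm
  rw [h4, hm]
  omega

end Pool.Agent.U81.SN
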