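import Pool.Agent.U81.SN.LG

/-!
Root numbers of the two twists have product `-1`.
-/

set_option autoImplicit false

open UpperHalfPlane MatrixGroups CongruenceSubgroup Filter Topology Pool.Agent.W97.TW

namespace Pool.Agent.U81.SN

section chars

variable {M m : ℕ} [NeZero M] [NeZero m] (χ : DirichletCharacter ℂ M)
  (ψ : DirichletCharacter ℂ m)

instance : NeZero (Nat.lcm M m) := ⟨Nat.lcm_ne_zero (NeZero.ne M) (NeZero.ne m)⟩

instance : NeZero (χ.mul ψ).conductor := ⟨DirichletCharacter.conductor_ne_zero _⟩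

omit [NeZero M] [NeZero m] in
lemma prim_apply {a : ℤ} (ha : IsCoprime a (Nat.lcm M m : ℕ)) :
    (χ.primitive_mul ψ) a = χ a * ψ a := by
  rw [DirichletCharacter.mul_def, DirichletCharacter.primitiveCharacter_apply_of_isCoprime _ ha,
    DirichletCharacter.mul, MulChar.mul_apply, DirichletCharacter.changeLevel_eq_cast_of_dvd' _ _ ha,
    DirichletCharacter.changeLevel_eq_cast_of_dvd' _ _ ha]

lemma prim_sq (hχ : χ ^ 2 = 1) (hψ : ψ ^ 2 = 1) : (χ.primitive_mul ψ) ^ 2 = 1 := by
  apply DirichletCharacter.changeLevel_injective (DirichletCharacter.conductor_dvd_level (χ.mul ψ))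
  rw [map_pow, DirichletCharacter.mul_def, DirichletCharacter.changeLevel_primitiveCharacter,
    map_one, DirichletCharacter.mul, mul_pow, ← map_pow, ← map_pow, hχ, hψ, map_one, map_one,
    one_mul]

omit [NeZero M] [NeZero m] in
lemma prim_neg_one : (χ.primitive_mul ψ) (-1) = χ (-1) * ψ (-1) := by
  have h := prim_apply χ ψ (a := -1) (isCoprime_one_left.neg_left)
  simpa using h

/-- a prime not dividing the modulus of `χ` ramifies in `ψ` iff it ramifies in `χψ` -/
lemma dvd_iff {N : ℕ} (hN : N.Prime) (hM : ¬ N ∣ M) (hχ : χ ^ 2 = 1) (hψ : ψ.IsPrimitive) :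
    N ∣ m ↔ N ∣ (χ.mul ψ).conductor := by
  constructor
  · intro h
    set θ := χ.primitive_mul ψ with hθ
    set n := Nat.lcm M m with hn
    have hcd : (χ.mul ψ).conductor ∣ n := DirichletCharacter.conductor_dvd_level _
    have hl : Nat.lcm M (χ.mul ψ).conductor ∣ n := Nat.lcm_dvd (Nat.dvd_lcm_left _ _) hcd
    have h1 : DirichletCharacter.changeLevel (Nat.dvd_lcm_right M m) ψ =
        DirichletCharacter.changeLevel hl (χ.mul θ) := by
      have h0 : χ.mul θ = DirichletCharacter.changeLevel (Nat.dvd_lcm_left _ _) χ *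
        DirichletCharacter.changeLevel (Nat.dvd_lcm_right _ _) θ := rfl
      have h2 : DirichletCharacter.changeLevel hcd θ = χ.mul ψ :=
        DirichletCharacter.changeLevel_primitiveCharacter _
      calc DirichletCharacter.changeLevel (Nat.dvd_lcm_right M m) ψ
          = DirichletCharacter.changeLevel (Nat.dvd_lcm_left M m) χ *
            (DirichletCharacter.changeLevel (Nat.dvd_lcm_left M m) χ *
            DirichletCharacter.changeLevel (Nat.dvd_lcm_right M m) ψ) := by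
            rw [← mul_assoc, ← map_mul, ← sq, hχ, map_one, one_mul]
        _ = DirichletCharacter.changeLevel (Nat.dvd_lcm_left M m) χ *
            DirichletCharacter.changeLevel hcd θ := by rw [h2]; rfl
        _ = _ := by
            rw [h0, map_mul, ← DirichletCharacter.changeLevel_trans,
              ← DirichletCharacter.changeLevel_trans]
    have h3 : (DirichletCharacter.changeLevel (Nat.dvd_lcm_right M m) ψ).conductor = m := by
      rw [DirichletCharacter.conductor_changeLevel]; exact hψ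
    have h4 := DirichletCharacter.conductor_dvd_of_mem_conductorSet
      (DirichletCharacter.changeLevel (Nat.dvd_lcm_right M m) ψ) ⟨hl, _, h1⟩
    rw [h3] at h4
    have h5 : N ∣ M * (χ.mul ψ).conductor := (h.trans h4).trans (Nat.lcm_dvd_mul _ _)
    exact (hN.dvd_mul.1 h5).resolve_left hM
  · intro h
    have h1 : N ∣ M * m :=
      (h.trans (DirichletCharacter.conductor_dvd_level (χ.mul ψ))).trans (Nat.lcm_dvd_mul _ _)
    exact (hN.dvd_mul.1 h1).resolve_left hM

end chars

variable {N : ℕ} {k : ℤ} (f : CuspForm (Gamma0 N : Subgroup (GL (Fin 2) ℝ)) k)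

/-- the root number -/
noncomputable def eps (N : ℕ) (k : ℤ) (w : ℂ) {m : ℕ} (ψ : DirichletCharacter ℂ m) : ℂ :=
  if N ∣ m then eps2 k ψ else eps1 N k w ψ

lemma coprime_of (hN : N = 1 ∨ N.Prime) {m : ℕ} (h : ¬ N ∣ m) : Nat.Coprime N m := by
  rcases hN with rfl | hN
  · exact Nat.coprime_one_left m
  · exact (Nat.Prime.coprime_iff_not_dvd hN).2 h

lemma eps_sq [NeZero N] (hN : N = 1 ∨ N.Prime) (h : (-1 : ℂ) ^ k = 1) {w : ℂ}
    (hw : w ^ 2 = (N : ℂ) ^ k) {m : ℕ} (ψ : DirichletCharacter ℂ m) (hsq : ψ ^ 2 = 1) :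
    eps N k w ψ ^ 2 = 1 := by
  unfold eps
  split_ifs with hd
  · exact eps2_sq h ψ hsq
  · exact eps1_sq h hw (coprime_of hN hd) ψ hsq

theorem root [NeZero N] (hN : N = 1 ∨ N.Prime) (hf : IsNewform N k f) (hk : 0 < k) {w : ℂ}
    (hw : ∀ z : ℍ, f (ofComplex (-1 / ((N : ℂ) * z))) = w * (z : ℂ) ^ k * f z)
    {m : ℕ} [NeZero m] (ψ : DirichletCharacter ℂ m) (hψ : ψ.IsPrimitive) (hsq : ψ ^ 2 = 1) :
    ∃ L : ℂ → ℂ, IsTwistedLFunction N k f ψ L ∧ (eps N k w ψ ≠ 1 → L (1 / 2) = 0) := by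
  have hm : (0 : ℝ) < m := by exact_mod_cast NeZero.pos m
  have hNR : (0 : ℝ) < N := by exact_mod_cast NeZero.pos N
  have hne : eps N k w ψ ≠ 0 := by
    intro h
    have := eps_sq hN (even_weight f hf.coeff_one) (fricke_sq f hf.coeff_one hw) ψ hsq
    rw [h] at this
    norm_num at this
  by_cases hd : N ∣ m
  · have e : eps N k w ψ = eps2 k ψ := if_pos hd
    rw [e] at hne ⊢
    exact exists_L f hf hk ψ hψ hsq m hm _ hne (fun t ht => fe_two f hd ψ hsq t ht)
  · have e : eps N k w ψ = eps1 N k w ψ := if_neg hd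
    rw [e] at hne ⊢
    exact exists_L f hf hk ψ hψ hsq (Real.sqrt N * m) (mul_pos (Real.sqrt_pos.2 hNR) hm) _ hne
      (fun t ht => fe_one f hw (coprime_of hN hd) ψ hsq t ht)

/-- the two root numbers have product `-1` -/
theorem eps_mul [NeZero N] (hN : N = 1 ∨ N.Prime) {w : ℂ} {M m : ℕ} [NeZero M] [NeZero m] (χ : DirichletCharacter ℂ M)
    (hχ : χ ^ 2 = 1) (hodd : χ (-1) = -1) (hs : χ N = 1) (ψ : DirichletCharacter ℂ m)
    (hψ : ψ.IsPrimitive) :
    eps N k w (χ.primitive_mul ψ) = - eps N k w ψ := by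
  have hcop : Nat.Coprime N M := by
    have : IsUnit ((N : ℕ) : ZMod M) := by
      by_contra hc
      rw [MulChar.map_nonunit χ hc] at hs
      exact zero_ne_one hs
    exact (ZMod.isUnit_iff_coprime _ _).1 this
  have hd : N ∣ m ↔ N ∣ (χ.mul ψ).conductor := by
    rcases hN with rfl | hN
    · simp
    · exact dvd_iff χ ψ hN ((Nat.Prime.coprime_iff_not_dvd hN).1 hcop) hχ hψ
  unfold eps
  by_cases hNm : N ∣ m
  · rw [if_pos hNm, if_pos (hd.1 hNm), eps2, eps2, prim_neg_one, hodd]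
    ring
  · rw [if_neg hNm, if_neg (fun h => hNm (hd.2 h)), eps1, eps1]
    have hc1 : IsCoprime (-(N : ℤ)) ((Nat.lcm M m : ℕ) : ℤ) := by
      refine IsCoprime.neg_left ?_
      rw [Nat.isCoprime_iff_coprime]
      exact Nat.Coprime.of_dvd_right (Nat.lcm_dvd_mul _ _)
        (Nat.Coprime.mul_right hcop (coprime_of hN hNm))
    have h1 := prim_apply χ ψ hc1
    push_cast at h1
    rw [h1]
    have h2 : χ (-(N : ZMod M)) = -1 := by
      rw [neg_eq_neg_one_mul, map_mul, hodd, hs, mul_one]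
    rw [h2]
    ring

theorem vanish [NeZero N] (hN : N = 1 ∨ N.Prime) (hf : IsNewform N k f) (hk : 0 < k)
    {M m : ℕ} [NeZero M] [NeZero m] (χ : DirichletCharacter ℂ M)
    (hχ : χ ^ 2 = 1) (hodd : χ (-1) = -1) (hs : χ N = 1) (ψ : DirichletCharacter ℂ m)
    (hψ : ψ.IsPrimitive) (hsq : ψ ^ 2 = 1) {L L' : ℂ → ℂ} (hL : IsTwistedLFunction N k f ψ L)
    (hL' : IsTwistedLFunction N k f (χ.primitive_mul ψ) L') : L (1 / 2) * L' (1 / 2) = 0 := by
  obtain ⟨w, hw⟩ := hf.fricke
  obtain ⟨L1, h1, h1'⟩ := root f hN hf hk hw ψ hψ hsq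
  obtain ⟨L2, h2, h2'⟩ := root f hN hf hk hw (χ.primitive_mul ψ)
    (DirichletCharacter.primitive_mul_isPrimitive χ ψ) (prim_sq χ ψ hχ hsq)
  rw [unique_L f ψ hL h1, unique_L f _ hL' h2]
  have hm := eps_mul (k := k) (w := w) hN χ hχ hodd hs ψ hψ
  by_cases h : eps N k w ψ = 1
  · rw [h2' (by rw [hm, h]; norm_num), mul_zero]
  · rw [h1' h, zero_mul]

end Pool.Agent.U81.SN
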